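import Pool.Agent.Helper395.BC.Pencil
import Pool.Agent.W518.EG.TGen

/-!
# Line bundles of small degree do not separate all pairs of points

If `L` is a line bundle of degree `d` with a section on a curve of genus `g > (d - 1) (d - 2) / 2`, there
are points `p, q` (maybe equal) such that `h⁰(L(-p-q)) ≥ h⁰(L) - 1`.
-/

set_option autoImplicit false
set_option linter.unusedSectionVars false

open scoped WithZero Matrix
open WithZero

namespace Pool.Agent.X317

open Pool.Agent.Helper395.CS hiding genus
open Pool.Agent.Helper395.BC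
open Pool.Agent.W45.PCG (lchain mulEquiv)

variable {K : Type} [Field K] [Algebra ℂ K]

/-- the dimension of the space of sections -/
noncomputable def h0 (L : LineBundle K) : ℕ := Module.finrank ℂ (H0 L)

/-- powers -/
def lpw (L : LineBundle K) : ℕ → LineBundle K
  | 0 => one K
  | n + 1 => lmul (lpw L n) L

theorem lpw_degree (L : LineBundle K) (n : ℕ) : (lpw L n).degree = n * L.degree := by
  induction n with
  | zero => rw [lpw, one_degree]; simp
  | succ n ih => rw [lpw, lmul_degree, ih]; push_cast; ring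

/-- `M(-∑ l)` -/
noncomputable def lsubl (M : LineBundle K) (l : List (Point K)) : LineBundle K := l.foldl lsub M

theorem lsubl_nil (M : LineBundle K) : lsubl M [] = M := rfl

theorem lsubl_cons (M : LineBundle K) (p : Point K) (l : List (Point K)) :
    lsubl M (p :: l) = lsubl (lsub M p) l := rfl

theorem lsubl_append_one (M : LineBundle K) (p : Point K) (l : List (Point K)) :
    lsubl M (l ++ [p]) = lsub (lsubl M l) p := by
  rw [lsubl, List.foldl_append]; rfl

theorem frame_lmul (L M : LineBundle K) (v : Point K) :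
    (lmul L M).frame v = L.frame v * M.frame v := rfl

theorem frame_lsub (M : LineBundle K) (p v : Point K) :
    (lsub M p).frame v = M.frame v * ((lpt p).frame v)⁻¹ := rfl

theorem frame_one (v : Point K) : (one K).frame v = 1 := rfl

theorem frame_lsubl (M : LineBundle K) (l : List (Point K)) (v : Point K) :
    (lsubl M l).frame v = M.frame v * (lsubl (one K) l).frame v := by
  induction l generalizing M with
  | nil => rw [lsubl_nil, lsubl_nil, frame_one, mul_one]
  | cons p l ih =>
    rw [lsubl_cons, ih, lsubl_cons, ih (lsub (one K) p), frame_lsub, frame_lsub, frame_one, one_mul,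
      mul_assoc]

theorem lsubl_degree (M : LineBundle K) (l : List (Point K)) :
    (lsubl M l).degree = M.degree - l.length := by
  induction l generalizing M with
  | nil => rw [lsubl_nil]; simp
  | cons p l ih => rw [lsubl_cons, ih, lsub_degree, List.length_cons]; push_cast; ring

theorem lsub_stalk_le (M : LineBundle K) (p : Point K) :
    ∀ v s, s ∈ (lsub M p).stalk v → s ∈ M.stalk v := by
  intro v s hs
  by_cases h : v = p
  · subst h
    rw [mem_lsub_self] at hs
    exact hs.le
  · rwa [mem_lsub_ne M h] at hs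

theorem lsubl_stalk_le (M : LineBundle K) (l : List (Point K)) :
    ∀ v s, s ∈ (lsubl M l).stalk v → s ∈ M.stalk v := by
  induction l generalizing M with
  | nil => intro v s hs; exact hs
  | cons p l ih =>
    intro v s hs
    exact lsub_stalk_le M p v s (ih (lsub M p) v s hs)

theorem mem_H0_lsub (M : LineBundle K) (p : Point K) (s : K) :
    s ∈ H0 (lsub M p) ↔ s ∈ H0 M ∧ p.val s < p.val (M.frame p : K) := by
  constructor
  · intro h
    exact ⟨fun v => lsub_stalk_le M p v s (h v), (mem_lsub_self M p s).1 (h p)⟩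
  · rintro ⟨h1, h2⟩ v
    by_cases h : v = p
    · subst h
      exact (mem_lsub_self M v s).2 h2
    · exact (mem_lsub_ne M h s).2 (h1 v)

/-- every section is given by points -/
theorem exists_list (hK : IsCurve K) (n : ℕ) (M : LineBundle K) (hM : M.degree = n) {s : K}
    (hs : s ∈ H0 M) (hs0 : s ≠ 0) : ∃ l : List (Point K), l.length = n ∧
      ∀ v : Point K, v.val ((lsubl M l).frame v : K) = v.val s := by
  induction n generalizing M with
  | zero =>
    exact ⟨[], rfl, fun v => (inv_mem_of_degree_zero hK (by rw [hM]; rfl) hs hs0 v).symm⟩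
  | succ n ih =>
    obtain ⟨v, hv⟩ : ∃ v : Point K, v.val s < v.val (M.frame v : K) := by
      by_contra hcon
      push Not at hcon
      have h1 : M.degree = (lprin hK (Units.mk0 s hs0)).degree := by
        unfold LineBundle.degree
        apply finsum_congr
        intro v
        have h2 : v.val (M.frame v : K) = v.val s := le_antisymm (hcon v) (hs v)
        change -(-WithZero.log (v.val (M.frame v : K))) = -(-WithZero.log (v.val s))
        rw [h2]
      rw [lprin_degree, hM] at h1
      have h2 : ((n + 1 : ℕ) : ℤ) ≠ 0 := by positivity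
      exact h2 h1
    obtain ⟨l, hl, hl2⟩ := ih (lsub M v) (by rw [lsub_degree, hM]; push_cast; ring)
      ((mem_H0_lsub M v s).2 ⟨hs, hv⟩)
    exact ⟨v :: l, by rw [List.length_cons, hl], fun w => by rw [lsubl_cons]; exact hl2 w⟩

/-- `f` is a section of `M` which generates the stalk at `q` -/
def GenAt (M : LineBundle K) (q : Point K) (f : K) : Prop :=
  f ∈ H0 M ∧ q.val f = q.val (M.frame q : K)

theorem GenAt.mul {M N : LineBundle K} {q : Point K} {f g : K} (hf : GenAt M q f)
    (hg : GenAt N q g) : GenAt (lmul M N) q (f * g) := by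
  constructor
  · intro v
    rw [mem_lmul, map_mul]
    exact mul_le_mul' (hf.1 v) (hg.1 v)
  · rw [frame_lmul, Units.val_mul, map_mul, map_mul, hf.2, hg.2]

theorem GenAt.congr {M N : LineBundle K} {q : Point K} {f : K} (hf : GenAt M q f)
    (h : ∀ v, M.frame v = N.frame v) : GenAt N q f := by
  constructor
  · intro v
    change v.val f ≤ v.val (N.frame v : K)
    rw [← h v]
    exact hf.1 v
  · rw [← h q]; exact hf.2

theorem exists_genAt {M : LineBundle K} {q : Point K} (hlt : h0 (lsub M q) < h0 M) :
    ∃ f, GenAt M q f := by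
  obtain ⟨s, h1, h2⟩ := exists_generator M q hlt
  exact ⟨s, h1, h2⟩

theorem exists_genAt_lpw {L : LineBundle K} {q : Point K} {t : K} (ht : GenAt L q t)
    (hs : ∀ p, ∃ s, GenAt (lsub L p) q s) (n : ℕ) (l : List (Point K)) (hl : l.length ≤ n) :
    ∃ f, GenAt (lsubl (lpw L n) l) q f := by
  induction n generalizing l with
  | zero =>
    obtain rfl : l = [] := List.length_eq_zero_iff.1 (Nat.le_zero.1 hl)
    refine ⟨1, ?_, ?_⟩
    · intro v
      change v.val 1 ≤ v.val ((one K).frame v : K)
      rw [frame_one, Units.val_one]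
    · change q.val 1 = q.val ((one K).frame q : K)
      rw [frame_one, Units.val_one]
  | succ n ih =>
    cases l with
    | nil =>
      obtain ⟨f, hf⟩ := ih [] (Nat.zero_le _)
      exact ⟨f * t, (hf.mul ht).congr fun v => rfl⟩
    | cons p l =>
      obtain ⟨f, hf⟩ := ih l (by simpa using hl)
      obtain ⟨s, hs⟩ := hs p
      refine ⟨f * s, (hf.mul hs).congr fun v => ?_⟩
      rw [frame_lmul, lsubl_cons, frame_lsubl, frame_lsubl (lsub (lpw L (n + 1)) p), frame_lsub,
        frame_lsub]
      change _ = ((lpw L n).frame v * L.frame v) * _ * _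
      ac_rfl

theorem h0_lsub_lt (hK : IsCurve K) (hg : genus K ≠ 0) {M : LineBundle K} {q : Point K} {f : K}
    (hf : GenAt M q f) : h0 (lsub M q) < h0 M := by
  have := H0_finite hK hg M
  apply Submodule.finrank_lt_finrank_of_lt
  refine lt_of_le_of_ne (H0_mono (lsub_stalk_le M q)) ?_
  intro h
  have h1 := hf.1
  rw [← h, mem_H0_lsub] at h1
  exact absurd hf.2 (ne_of_lt h1.2)

theorem h0_le_lsub (hK : IsCurve K) (hg : genus K ≠ 0) (M : LineBundle K) (q : Point K) :
    h0 M ≤ h0 (lsub M q) + 1 := by
  have h1 := ((lchain hK (lsub_stalk_le M q)).2 (H0_finite hK hg M)).1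
  rw [lsub_degree] at h1
  have h2 : (h0 M : ℤ) = Module.finrank ℂ (H0 M) := rfl
  have h3 : (h0 (lsub M q) : ℤ) = Module.finrank ℂ (H0 (lsub M q)) := rfl
  omega

theorem h0_mono (hK : IsCurve K) (hg : genus K ≠ 0) {L M : LineBundle K}
    (h : ∀ v s, s ∈ L.stalk v → s ∈ M.stalk v) : h0 L ≤ h0 M := by
  have := H0_finite hK hg M
  exact Submodule.finrank_mono (H0_mono h)

theorem count (hK : IsCurve K) (hg : genus K ≠ 0) {M : LineBundle K} {l : List (Point K)} {n : ℕ}
    (h : ∀ q (k : List (Point K)), k.length ≤ n → ∃ f, GenAt (lsubl M k) q f) (j : ℕ)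
    (hj : j ≤ n + 1) (hj2 : j ≤ l.length) : h0 (lsubl M (l.take j)) + j ≤ h0 M := by
  induction j with
  | zero => simp [lsubl_nil]
  | succ j ih =>
    have h1 := ih (by omega) (by omega)
    have h2 : l.take (j + 1) = l.take j ++ [l[j]] := by
      rw [List.take_append_getElem]
    obtain ⟨f, hf⟩ := h l[j] (l.take j) (by rw [List.length_take]; omega)
    have h3 := h0_lsub_lt hK hg hf
    rw [h2, lsubl_append_one]
    omega

theorem h0_congr {L M : LineBundle K}
    (h : ∀ v : Point K, v.val (L.frame v : K) = v.val (M.frame v : K)) : h0 L = h0 M := by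
  unfold h0
  rw [H0_congr (M := M)]
  intro v
  ext s
  change v.val s ≤ v.val (L.frame v : K) ↔ v.val s ≤ v.val (M.frame v : K)
  rw [h v]

theorem h0_step (hK : IsCurve K) {L : LineBundle K} {s : K} (hs0 : s ≠ 0) {l : List (Point K)}
    (hl : ∀ v : Point K, v.val ((lsubl L l).frame v : K) = v.val s) (n : ℕ) :
    h0 (lsubl (lpw L (n + 1)) l) = h0 (lpw L n) := by
  have e := (mulEquiv hK (Units.mk0 s hs0) (lsubl (lpw L (n + 1)) l)).finrank_eq
  unfold h0
  rw [← e]
  apply h0_congr
  intro v
  have h1 := hl v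
  rw [frame_lsubl, Units.val_mul, map_mul] at h1
  rw [frame_lmul, frame_lsubl, Units.val_mul, Units.val_mul, map_mul, map_mul]
  change v.val (((Units.mk0 s hs0)⁻¹ : Kˣ) : K) * (v.val (((lpw L n).frame v * L.frame v : Kˣ) : K) * _) = _
  rw [Units.val_inv_eq_inv_val, Units.val_mk0, map_inv₀, Units.val_mul, map_mul]
  have h2 : v.val s ≠ 0 := v.val_ne_zero hs0
  rw [mul_assoc, h1, mul_comm (v.val _)⁻¹, mul_assoc, mul_inv_cancel₀ h2, mul_one]

theorem h0_large (hK : IsCurve K) (hg : genus K ≠ 0) (L : LineBundle K)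
    (hL : 2 * (genus K : ℤ) - 2 < L.degree) : (h0 L : ℤ) = L.degree + 1 - genus K := by
  obtain ⟨-, h⟩ := rrL hK hg L
  have h1 : H0 (lmul (can hK hg) (linv L)) = ⊥ := by
    apply H0_eq_bot hK
    rw [lmul_degree, linv_degree, can_degree]
    omega
  rw [h1, finrank_bot] at h
  change (Module.finrank ℂ (H0 L) : ℤ) = _
  simpa using h

/-- the Castelnuovo type count -/
theorem genus_le (hK : IsCurve K) (hg : genus K ≠ 0) (L : LineBundle K) {d : ℕ} (hd : 1 ≤ d)
    (hL : L.degree = d) (h1 : 1 ≤ h0 L) (h : ∀ p q, h0 (lsub (lsub L p) q) + 2 ≤ h0 L) :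
    2 * (genus K : ℤ) ≤ ((d : ℤ) - 1) * (d - 2) := by
  have hpos : 0 < Module.finrank ℂ (H0 L) := h1
  have := Module.nontrivial_of_finrank_pos hpos
  obtain ⟨⟨s, hs⟩, hs0⟩ := exists_ne (0 : H0 L)
  have hs0' : s ≠ 0 := fun h => hs0 (Subtype.ext h)
  obtain ⟨l, hl, hl2⟩ := exists_list hK d L hL hs hs0'
  have hgen : ∀ (n : ℕ) (q : Point K) (k : List (Point K)), k.length ≤ n →
      ∃ f, GenAt (lsubl (lpw L n) k) q f := by
    intro n q k hk
    obtain ⟨t, ht⟩ : ∃ t, GenAt L q t := by
      apply exists_genAt
      have a1 := h q q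
      have a2 := h0_le_lsub hK hg (lsub L q) q
      omega
    refine exists_genAt_lpw ht (fun p => ?_) n k hk
    apply exists_genAt
    have a1 := h p q
    have a2 := h0_le_lsub hK hg L p
    omega
  have hstep : ∀ n j : ℕ, j ≤ n + 2 → j ≤ d → h0 (lpw L n) + j ≤ h0 (lpw L (n + 1)) := by
    intro n j hj hjd
    have a1 := count hK hg (l := l) (fun q k hk => hgen (n + 1) q k hk) j hj (by omega)
    have a2 : h0 (lpw L n) ≤ h0 (lsubl (lpw L (n + 1)) (l.take j)) := by
      rw [← h0_step hK hs0' hl2 n]
      apply h0_mono hK hg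
      have a3 : lsubl (lpw L (n + 1)) l = lsubl (lsubl (lpw L (n + 1)) (l.take j)) (l.drop j) := by
        conv_lhs => rw [← List.take_append_drop j l]
        rw [lsubl, List.foldl_append]
        rfl
      rw [a3]
      exact lsubl_stalk_le _ _
    omega
  have h00 : h0 (lpw L 0) = 1 := (H0_one hK).2
  -- small powers
  have hsmall : ∀ n : ℕ, n + 1 ≤ d → (n + 1) * (n + 2) ≤ 2 * h0 (lpw L n) := by
    intro n
    induction n with
    | zero => intro _; rw [h00]
    | succ n ih =>
      intro hn
      have b1 := ih (by omega)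
      have b2 := hstep n (n + 2) le_rfl (by omega)
      nlinarith
  have hbig : ∀ m : ℕ, d * (d + 1) + 2 * (m * d) ≤ 2 * h0 (lpw L (d - 1 + m)) := by
    intro m
    induction m with
    | zero =>
      have b1 := hsmall (d - 1) (by omega)
      have b2 : d - 1 + 1 = d := by omega
      have b3 : d - 1 + 2 = d + 1 := by omega
      rw [b2, b3] at b1
      simpa using b1
    | succ m ih =>
      have b2 := hstep (d - 1 + m) d (by omega) le_rfl
      rw [← add_assoc]
      nlinarith
  have hm := hbig (2 * genus K)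
  have hdeg : (lpw L (d - 1 + 2 * genus K)).degree = ((d : ℤ) - 1 + 2 * genus K) * d := by
    rw [lpw_degree, hL]
    push_cast [Nat.cast_sub hd]
    ring
  have hd' : (1 : ℤ) ≤ d := by exact_mod_cast hd
  have hlarge := h0_large hK hg (lpw L (d - 1 + 2 * genus K)) (by
    rw [hdeg]
    nlinarith [Int.natCast_nonneg (genus K)])
  rw [hdeg] at hlarge
  zify at hm
  rw [hlarge] at hm
  nlinarith

/-- a line bundle of small degree does not separate some pair of points -/
theorem exists_pair (hK : IsCurve K) (L : LineBundle K) {d : ℕ} (hd : 1 ≤ d)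
    (hL : L.degree = d) (hg : ((d : ℤ) - 1) * (d - 2) < 2 * genus K) (hg0 : genus K ≠ 0) :
    ∃ p q, h0 L ≤ h0 (lsub (lsub L p) q) + 1 := by
  by_contra hcon
  push Not at hcon
  have h1 : 1 ≤ h0 L := by
    obtain ⟨p⟩ := point_nonempty hK
    have := hcon p p
    omega
  have := genus_le hK hg0 L hd hL h1 (fun p q => by have := hcon p q; omega)
  omega

end Pool.Agent.X317
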