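import Pool.Agent.X317.HypG
import Pool.Agent.X317.NVA

/-!
# Containments of Brill-Noether loci for small degree

A smooth projective curve over `ℂ` is given by its function field `K`, see
`Pool/Agent/Helper395/CS/Defs.lean`; its genus is `dim H¹(𝒪)`, see `Pool/Agent/Helper395/BC/Defs.lean`.
-/

set_option autoImplicit false
set_option linter.unusedSectionVars false

open scoped WithZero Matrix Polynomial IntermediateField
open WithZero

namespace Pool.Agent.X317

open Pool.Agent.Helper395.CS hiding genus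
open Pool.Agent.Helper395.BC

/-- The curve with function field `K` has a `g^r_d`: there is a line bundle `L` of degree `d` with
`h⁰(L) ≥ r + 1`. -/
def HasGrd (K : Type) [Field K] [Algebra ℂ K] (r d : ℤ) : Prop :=
  ∃ L : LineBundle K, L.degree = d ∧ r + 1 ≤ (Module.finrank ℂ (H0 L) : ℤ)

/-- The Brill-Noether number `ρ(g, r, d) = g - (r + 1) (g - d + r)`. -/
def rho (g r d : ℤ) : ℤ := g - (r + 1) * (g - d + r)

/-- The class of the curve with function field `K` lies in the locus `M^r_{g,d}`: it is a smooth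
projective curve of genus `g` with a `g^r_d`. -/
def InLocus (g : ℕ) (r d : ℤ) (K : Type) [Field K] [Algebra ℂ K] : Prop :=
  IsCurve K ∧ genus K = g ∧ HasGrd K r d

/-- The locus `M^r_{g,d}` is nonempty. -/
def LocusNonempty (g : ℕ) (r d : ℤ) : Prop :=
  ∃ (K : Type) (_ : Field K) (_ : Algebra ℂ K), InLocus g r d K

/-- `M^r_{g,d} ⊆ M^s_{g,e}`: every curve of genus `g` with a `g^r_d` has a `g^s_e`. -/
def LocusSubset (g : ℕ) (r d s e : ℤ) : Prop :=
  ∀ (K : Type) [Field K] [Algebra ℂ K], InLocus g r d K → InLocus g s e K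

variable {K : Type} [Field K] [Algebra ℂ K]

theorem HasGrd.add {r d : ℤ} (hK : IsCurve K) (hg : genus K ≠ 0) (h : HasGrd K r d) (n : ℕ) :
    HasGrd K r (d + n) := by
  induction n with
  | zero => simpa using h
  | succ n ih =>
    obtain ⟨L, h1, h2⟩ := ih
    obtain ⟨v⟩ := point_nonempty hK
    refine ⟨lmul L (lpt v), by rw [lmul_degree, lpt_degree, h1]; push_cast; ring, h2.trans ?_⟩
    exact_mod_cast h0_mono hK hg (le_lmul_lpt L v)

theorem HasGrd.add' {r d e : ℤ} (hK : IsCurve K) (hg : genus K ≠ 0) (h : HasGrd K r d)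
    (hde : d ≤ e) : HasGrd K r e := by
  have h1 := h.add hK hg (e - d).toNat
  have h2 : d + ((e - d).toNat : ℤ) = e := by omega
  rwa [h2] at h1

theorem mul_mono {δ d : ℤ} (h1 : 2 ≤ δ) (h2 : δ ≤ d) : (δ - 1) * (δ - 2) ≤ (d - 1) * (d - 2) := by
  nlinarith

/-- descent: two points impose only one condition -/
theorem HasGrd.descend {r d : ℤ} (hK : IsCurve K) (hg0 : genus K ≠ 0) (h : HasGrd K r d)
    (hrd : 2 * r ≤ d) (hg : (d - 1) * (d - 2) < 2 * genus K) (n : ℕ) (hn : (n : ℤ) ≤ r) :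
    HasGrd K (r - n) (d - 2 * n) := by
  induction n with
  | zero => simpa using h
  | succ n ih =>
    push_cast at hn
    obtain ⟨L, h1, h2⟩ := ih (by omega)
    obtain ⟨δ, hδ⟩ : ∃ δ : ℕ, (δ : ℤ) = d - 2 * n := ⟨(d - 2 * n).toNat, by omega⟩
    rw [← hδ] at h1
    have h3 : ((δ : ℤ) - 1) * (δ - 2) ≤ (d - 1) * (d - 2) := mul_mono (by omega) (by omega)
    obtain ⟨p, q, hpq⟩ := exists_pair hK L (d := δ) (by omega) h1 (by omega) hg0
    refine ⟨lsub (lsub L p) q, ?_, ?_⟩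
    · rw [lsub_degree, lsub_degree, h1, hδ]
      push_cast
      ring
    · have h4 : (h0 L : ℤ) ≤ h0 (lsub (lsub L p) q) + 1 := by exact_mod_cast hpq
      have h5 : (h0 L : ℤ) = Module.finrank ℂ (H0 L) := rfl
      have h6 : (h0 (lsub (lsub L p) q) : ℤ) = Module.finrank ℂ (H0 (lsub (lsub L p) q)) := rfl
      push_cast
      omega

/-- `M^r_{g,d} ⊆ M^s_{g,e}` for `e ≥ d - 2 (r - s)` and `2 g > (d - 1) (d - 2)` -/
theorem locusSubset {g : ℕ} {r d s e : ℤ} (hs : 0 ≤ s) (hsr : s ≤ r) (hrd : 2 * r ≤ d)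
    (hg : (d - 1) * (d - 2) < 2 * g) (hg0 : g ≠ 0) (he : d - 2 * r + 2 * s ≤ e) :
    LocusSubset g r d s e := by
  rintro K _ _ ⟨hK, hgK, h⟩
  subst hgK
  refine ⟨hK, rfl, ?_⟩
  have h1 := h.descend hK hg0 hrd hg (r - s).toNat (by omega)
  have h2 : r - ((r - s).toNat : ℤ) = s := by omega
  rw [h2] at h1
  exact h1.add' hK hg0 (by omega)

/-- hyperelliptic curves -/
theorem locusNonempty {g : ℕ} {r d : ℤ} (hr : 0 ≤ r) (hrd : 2 * r ≤ d) (hg : 7 ≤ g) :
    LocusNonempty g r d := by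
  obtain ⟨b, rfl⟩ : ∃ b, g = b + 7 := ⟨g - 7, by omega⟩
  obtain ⟨s, hs⟩ : ∃ s : Finset ℂ, s.card = 2 * b + 16 :=
    Infinite.exists_subset_card_eq ℂ (2 * b + 16)
  have R := Pool.Agent.Y803.FD.revs s hs
  have hirr : Fact (Irreducible (Pool.Agent.Y803.FD.Pf (Pool.Agent.Y803.FD.fs s))) :=
    ⟨Pool.Agent.Y803.FD.Pf_irreducible (Pool.Agent.Y803.FD.fs_sep s) (by rw [R.deg]; omega)⟩
  have H := Pool.Agent.Y803.FD.hypf (f := Pool.Agent.Y803.FD.fs s) (Pool.Agent.Y803.FD.fs_sep s)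
  refine ⟨Pool.Agent.Y803.FD.Kf (Pool.Agent.Y803.FD.fs s), inferInstance, inferInstance, H.curve,
    genus_hyp H R, ?_⟩
  have hg0 : genus (Pool.Agent.Y803.FD.Kf (Pool.Agent.Y803.FD.fs s)) ≠ 0 := by
    rw [genus_hyp H R]; omega
  obtain ⟨m, rfl⟩ : ∃ m : ℕ, r = m := ⟨r.toNat, by omega⟩
  have h1 : HasGrd (Pool.Agent.Y803.FD.Kf (Pool.Agent.Y803.FD.fs s)) m (2 * m) := by
    refine ⟨lineH H.curve H.x_ne m, Pool.Agent.Y803.FD.degree_lineH H R m, ?_⟩
    have := H0_finite H.curve hg0 (lineH H.curve H.x_ne m)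
    have h2 : LinearMap.range (pev (Pool.Agent.Y803.FD.xf (Pool.Agent.Y803.FD.fs s)) (m + 1)) ≤
        H0 (lineH H.curve H.x_ne m) := by
      rintro _ ⟨u, rfl⟩
      exact le_H0_lineH H R m u
    have h3 := Submodule.finrank_mono h2
    rw [LinearMap.finrank_range_of_inj (pev_injective H.trans _)] at h3
    simp only [Module.finrank_fintype_fun_eq_card, Fintype.card_fin] at h3
    exact_mod_cast h3
  exact h1.add' H.curve hg0 hrd

theorem rho_neg {g r d : ℤ} (hr : 2 ≤ r) (hrd : 2 * r ≤ d) (hg : (d - 1) * (d - 2) < 2 * g) :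
    rho g r d < 0 := by
  have h0 : (d - 1) * (d - 2) + 2 ≤ 2 * g := by
    have h1 : Even ((d - 1) * (d - 2)) := by
      have := Int.even_mul_pred_self (d - 1)
      have h2 : d - 1 - 1 = d - 2 := by ring
      rwa [h2] at this
    obtain ⟨a, ha⟩ := h1
    omega
  have h1 : 0 ≤ (d - 2 * r) * (r * (d + 2 * r) - (5 * r + 2)) := by
    apply mul_nonneg (by omega)
    nlinarith
  have h2 : 0 < 2 * r * (2 * r ^ 2 - 4 * r + 1) := by
    apply mul_pos (by omega)
    nlinarith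
  unfold rho
  nlinarith

theorem le_g {g d : ℤ} (hd : 6 ≤ d) (hg : (d - 1) * (d - 2) < 2 * g) : d ≤ g - 1 := by
  have h0 : (d - 1) * (d - 2) + 2 ≤ 2 * g := by
    have h1 : Even ((d - 1) * (d - 2)) := by
      have := Int.even_mul_pred_self (d - 1)
      have h2 : d - 1 - 1 = d - 2 := by ring
      rwa [h2] at this
    obtain ⟨a, ha⟩ := h1
    omega
  nlinarith

end Pool.Agent.X317
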