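import Pool.Agent.Y803.FD.All
import Pool.Agent.W518.EG.TGen

/-!
# Hyperelliptic curves: the genus `dim H¹(𝒪)` and the sections of the multiples of the pencil
-/

set_option autoImplicit false
set_option linter.unusedSectionVars false

open scoped WithZero Matrix Polynomial IntermediateField
open WithZero

namespace Pool.Agent.X317

open Pool.Agent.Helper395.CS hiding genus map_mul map_inv
open Pool.Agent.Helper395.BC
open Pool.Agent.Y803.FD

variable {K : Type} [Field K] [Algebra ℂ K]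
variable {x y : K} {f f' : ℂ[X]} {b : ℕ} {ι : K ≃ₐ[ℂ] K} (H : Hyp x y f ι) (R : Rev f f' b)

include H R

theorem mem_lineH_iff (k : ℕ) (z : K) : z ∈ H0 (lineH H.curve H.x_ne (k + (b + 8))) ↔
    ∃ (u : Fin (k + (b + 8) + 1) → ℂ) (w : Fin (k + 1) → ℂ),
      z = pev x (k + (b + 8) + 1) u + pev x (k + 1) w * y := by
  constructor
  · intro hz
    have hz' : ∀ v : Point K, v.val z ≤ v.val (dgen x v (k + (b + 8))) := fun v => hz v
    obtain ⟨p, q, rfl⟩ := H.mem_ring (z := z) (fun v hv => by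
      have := hz' v
      rwa [dgen_fin hv, map_one] at this)
    obtain ⟨v, hv⟩ := exists_inf H
    have h1 := H.parts_le rfl (mem_adj p) (mem_adj q) v (C := v.val x ^ (k + (b + 8))) (by
      have := hz' v
      rwa [dgen_inf hv, map_pow] at this) (by
      have h2 : 1 < (v.comap ι).val x := by rw [H.comap_x]; exact hv
      have := hz' (v.comap ι)
      rwa [dgen_inf h2, map_pow, H.comap_x] at this)
    have hp : p.natDegree ≤ k + (b + 8) := by
      rcases eq_or_ne p 0 with rfl | hp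
      · simp
      · have h4 := h1.1
        rwa [val_aeval_inf hv p hp, pow_le_pow_iff_right₀ hv] at h4
    have hq : q.natDegree ≤ k := by
      rcases eq_or_ne q 0 with rfl | hq
      · simp
      · have h3 := h1.2
        rw [map_mul, val_aeval_inf hv q hq, val_y_inf H R hv, ← pow_add,
          pow_le_pow_iff_right₀ hv] at h3
        omega
    exact ⟨fun j => p.coeff j, fun j => q.coeff j, by rw [pev_coeff x p hp, pev_coeff x q hq]⟩
  · rintro ⟨u, w, rfl⟩ v
    change v.val _ ≤ v.val (dgen x v (k + (b + 8)))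
    refine Valuation.map_add_le _ (pev_le v _ u) ?_
    rw [map_mul]
    by_cases hv : v.val x ≤ 1
    · have h1 := pev_le (x := x) v _ w
      rw [dgen_fin hv, map_one] at h1 ⊢
      exact mul_le_one' h1 (H.val_y_le hv)
    · have hv' := not_le.1 hv
      have h1 := pev_le (x := x) v _ w
      rw [dgen_inf hv', map_pow] at h1 ⊢
      rw [val_y_inf H R hv', pow_add (v.val x) k (b + 8)]
      exact mul_le_mul' h1 le_rfl

theorem H0_lineH (k : ℕ) : FiniteDimensional ℂ (H0 (lineH H.curve H.x_ne (k + (b + 8)))) ∧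
    Module.finrank ℂ (H0 (lineH H.curve H.x_ne (k + (b + 8)))) = (k + (b + 8) + 1) + (k + 1) := by
  let Φ : ((Fin (k + (b + 8) + 1) → ℂ) × (Fin (k + 1) → ℂ)) →ₗ[ℂ] K :=
    LinearMap.coprod (pev x (k + (b + 8) + 1)) ((LinearMap.mulRight ℂ y).comp (pev x (k + 1)))
  have hΦ : ∀ u w, Φ (u, w) = pev x (k + (b + 8) + 1) u + pev x (k + 1) w * y := fun u w => rfl
  have hinj : Function.Injective Φ := by
    rw [← LinearMap.ker_eq_bot, LinearMap.ker_eq_bot']
    rintro ⟨u, w⟩ h
    rw [hΦ] at h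
    have hu : pev x (k + (b + 8) + 1) u ∈ ℂ⟮x⟯ := by rw [pev_eq_aeval]; exact mem_adj _
    have hw : pev x (k + 1) w ∈ ℂ⟮x⟯ := by rw [pev_eq_aeval]; exact mem_adj _
    obtain ⟨h1, h2⟩ := H.coeff_zero hu hw h
    have h3 : u = 0 := pev_injective H.trans _ (by rw [h1, map_zero])
    have h4 : w = 0 := pev_injective H.trans _ (by rw [h2, map_zero])
    rw [h3, h4]; rfl
  have hrange : H0 (lineH H.curve H.x_ne (k + (b + 8))) = LinearMap.range Φ := by
    ext z
    rw [mem_lineH_iff H R, LinearMap.mem_range]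
    constructor
    · rintro ⟨u, w, h⟩; exact ⟨(u, w), by rw [hΦ, h]⟩
    · rintro ⟨⟨u, w⟩, h⟩; exact ⟨u, w, by rw [← h, hΦ]⟩
  rw [hrange]
  refine ⟨inferInstance, ?_⟩
  rw [LinearMap.finrank_range_of_inj hinj, Module.finrank_prod]
  simp

theorem genus_hyp : Pool.Agent.Helper395.BC.genus K = b + 7 := by
  refine Pool.Agent.W518.EG.s_GEN K H.curve 2 (b + 7) (b + 8) (lineH H.curve H.x_ne 1) (by norm_num)
    (by omega) ?_ ?_
  · rw [degree_lineH H R]; norm_num
  · intro t ht
    obtain ⟨k, rfl⟩ : ∃ k, t = k + (b + 8) := ⟨t - (b + 8), by omega⟩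
    have h1 : H0 (Pool.Agent.W518.PC.lpow (lineH H.curve H.x_ne 1) ((k + (b + 8) : ℕ) : ℤ)) =
        H0 (lineH H.curve H.x_ne (k + (b + 8))) := by
      apply H0_congr
      intro v
      have h2 : (((Pool.Agent.W518.PC.lpow (lineH H.curve H.x_ne 1) ((k + (b + 8) : ℕ) : ℤ)).frame v :
          Kˣ) : K) = dgen x v (k + (b + 8)) := by
        change (((lineH H.curve H.x_ne 1).frame v ^ (((k + (b + 8) : ℕ)) : ℤ) : Kˣ) : K) = _
        rw [zpow_natCast, Units.val_pow_eq_pow_val]
        change (dgen x v 1) ^ _ = _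
        by_cases hv : v.val x ≤ 1
        · rw [dgen_fin hv, dgen_fin hv, one_pow]
        · rw [dgen_inf (not_le.1 hv), dgen_inf (not_le.1 hv), pow_one]
      ext s
      change v.val s ≤ v.val _ ↔ v.val s ≤ v.val _
      rw [h2]
      rfl
    rw [h1]
    obtain ⟨h3, h4⟩ := H0_lineH H R k
    refine ⟨h3, ?_⟩
    rw [h4]
    push_cast
    ring

theorem le_H0_lineH (m : ℕ) : (∀ u : Fin (m + 1) → ℂ, pev x (m + 1) u ∈
    H0 (lineH H.curve H.x_ne m)) := fun u v => pev_le v _ u

end Pool.Agent.X317
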