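import Pool.Agent.Y803.NW.Main

/-!
# Stable bundles of rank two and degree two have at most one section
-/

set_option autoImplicit false
set_option linter.unusedSectionVars false

open scoped WithZero Matrix
open WithZero

namespace Pool.Agent.X317

open Pool.Agent.Helper395.CS hiding genus
open Pool.Agent.Helper395.BC
open Pool.Agent.W525.BNK

variable {K : Type} [Field K] [Algebra ℂ K]

/-- a section vanishing at a point lies in a line subbundle of positive degree -/
theorem exists_line (hK : IsCurve K) {E : Bundle K 2} {w : Fin 2 → K} (hw : w ∈ E.sections)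
    (hw0 : w ≠ 0) {v : Point K} (hv : ∀ i, v.val (((E.frame v)⁻¹.1 *ᵥ w) i) < 1) :
    ∃ (F : Bundle K 1) (j : (Fin 1 → K) →ₗ[K] (Fin 2 → K)), IsSubbundle F E j ∧ 1 ≤ F.degree := by
  let j : (Fin 1 → K) →ₗ[K] (Fin 2 → K) :=
    (LinearMap.toSpanSingleton K (Fin 2 → K) w).comp (LinearMap.proj 0)
  have hj : ∀ z : Fin 1 → K, j z = z 0 • w := fun z => rfl
  have hinj : Function.Injective j := by
    rw [← LinearMap.ker_eq_bot, LinearMap.ker_eq_bot']
    intro z hz
    rw [hj] at hz
    have h1 : z 0 = 0 := (smul_eq_zero.1 hz).resolve_right hw0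
    funext i
    rw [Subsingleton.elim i 0, h1]
    rfl
  obtain ⟨F, hF⟩ := exists_sub hK E j hinj
  refine ⟨F, j, hF, ?_⟩
  have h1 : (1 : K) ∈ H0 (lsub F.det v) := by
    intro u
    by_cases huv : u = v
    · subst huv
      rw [mem_lsub_self]
      have hπ := unif_ne_zero u
      have h2 : (fun _ : Fin 1 => (unif u)⁻¹) ∈ F.stalk u := by
        rw [hF.stalk]
        intro i
        rw [hj, Matrix.mulVec_smul, Pi.smul_apply, smul_eq_mul, map_mul, map_inv₀,
          inv_mul_le_iff₀ (zero_lt_iff.2 (u.val_ne_zero hπ)), mul_one]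
        exact (val_lt_one_iff u _).1 (hv i)
      rw [mem_det_one] at h2
      have h3 : u.val (unif u)⁻¹ ≤ u.val (F.det.frame u : K) := h2
      refine lt_of_lt_of_le ?_ h3
      rw [map_one, map_inv₀]
      exact (one_lt_inv₀ (zero_lt_iff.2 (u.val_ne_zero hπ))).2 (val_unif_lt u)
    · rw [mem_lsub_ne F.det huv]
      have h2 : (fun _ : Fin 1 => (1 : K)) ∈ F.stalk u := by
        rw [hF.stalk, hj, one_smul]
        exact hw u
      rwa [mem_det_one] at h2
  have h2 := degree_nonneg_of_section hK h1 one_ne_zero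
  rw [lsub_degree, det_one_degree] at h2
  omega

/-- two sections without common zeros of their combinations trivialise the bundle -/
theorem exists_vanishing (hK : IsCurve K) {E : Bundle K 2} (hE : E.degree ≠ 0)
    {V : Submodule ℂ (Fin 2 → K)} (hV : V ≤ E.sections) (h2 : Module.finrank ℂ V = 2) :
    ∃ w ∈ V, w ≠ 0 ∧ ∃ v : Point K, ∀ i, v.val (((E.frame v)⁻¹.1 *ᵥ w) i) < 1 := by
  by_contra hcon
  push Not at hcon
  have hfin : FiniteDimensional ℂ V := Module.finite_of_finrank_pos (by omega)
  let b : Module.Basis (Fin 2) ℂ V := (Module.finBasisOfFinrankEq ℂ V h2)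
  set s : Fin 2 → K := (b 0 : Fin 2 → K) with hs
  set t : Fin 2 → K := (b 1 : Fin 2 → K) with ht
  have hcomb : ∀ x y : ℂ, x • s + y • t = 0 → x = 0 ∧ y = 0 := by
    intro x y hxy
    have h3 : x • b 0 + y • b 1 = 0 := Subtype.ext hxy
    have h4 := b.linearIndependent
    rw [Fintype.linearIndependent_iff] at h4
    have h5 := h4 ![x, y] (by simpa [Fin.sum_univ_two] using h3)
    exact ⟨by simpa using h5 0, by simpa using h5 1⟩
  have hsm : s ∈ V := (b 0).2
  have htm : t ∈ V := (b 1).2
  have key : ∀ v : Point K, v.val (s 0 * t 1 - s 1 * t 0) = v.val ((E.frame v).1.det) := by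
    intro v
    set a := (E.frame v)⁻¹.1 *ᵥ s with ha
    set c := (E.frame v)⁻¹.1 *ᵥ t with hc
    have ha1 : ∀ i, v.val (a i) ≤ 1 := hV hsm v
    have hc1 : ∀ i, v.val (c i) ≤ 1 := hV htm v
    choose α hα using fun i => exists_res hK v (ha1 i)
    choose γ hγ using fun i => exists_res hK v (hc1 i)
    have hdet : α 0 * γ 1 - α 1 * γ 0 ≠ 0 := by
      intro h0
      obtain ⟨x, y, hxy, h3⟩ : ∃ x y : ℂ, (x ≠ 0 ∨ y ≠ 0) ∧ ∀ i, x * α i + y * γ i = 0 := by
        by_cases h1 : γ 0 = 0 ∧ γ 1 = 0
        · exact ⟨0, 1, Or.inr one_ne_zero, fun i => by fin_cases i <;> simp [h1.1, h1.2]⟩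
        · by_cases h4 : γ 0 = 0
          · have h5 : γ 1 ≠ 0 := fun h => h1 ⟨h4, h⟩
            refine ⟨γ 1, -α 1, Or.inl h5, fun i => ?_⟩
            fin_cases i
            · change γ 1 * α 0 + -α 1 * γ 0 = 0
              linear_combination h0
            · change γ 1 * α 1 + -α 1 * γ 1 = 0
              ring
          · refine ⟨γ 0, -α 0, Or.inl h4, fun i => ?_⟩
            fin_cases i
            · change γ 0 * α 0 + -α 0 * γ 0 = 0
              ring
            · change γ 0 * α 1 + -α 0 * γ 1 = 0
              linear_combination -h0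
      obtain ⟨i, hi⟩ := hcon (x • s + y • t) (V.add_mem (V.smul_mem x hsm) (V.smul_mem y htm))
        (fun h => by
          obtain ⟨h5, h6⟩ := hcomb x y h
          rcases hxy with h7 | h7
          · exact h7 h5
          · exact h7 h6) v
      have h6 : ((E.frame v)⁻¹.1 *ᵥ (x • s + y • t)) i =
          algebraMap ℂ K x * (a i - algebraMap ℂ K (α i)) +
          algebraMap ℂ K y * (c i - algebraMap ℂ K (γ i)) := by
        have h7 : ((E.frame v)⁻¹.1 *ᵥ (x • s + y • t)) i =
            algebraMap ℂ K x * a i + algebraMap ℂ K y * c i := by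
          have e1 : x • s + y • t = (algebraMap ℂ K x) • s + (algebraMap ℂ K y) • t := by
            simp only [algebraMap_smul]
          rw [e1, Matrix.mulVec_add, Matrix.mulVec_smul, Matrix.mulVec_smul]
          rfl
        have h8 : algebraMap ℂ K x * algebraMap ℂ K (α i) +
            algebraMap ℂ K y * algebraMap ℂ K (γ i) = 0 := by
          rw [← map_mul, ← map_mul, ← map_add, h3 i, map_zero]
        rw [h7]
        linear_combination h8
      rw [h6] at hi
      refine absurd hi (not_le.2 (Valuation.map_add_lt _ ?_ ?_))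
      · rw [map_mul]
        exact (mul_le_of_le_one_left' (v.const_le x)).trans_lt (hα i)
      · rw [map_mul]
        exact (mul_le_of_le_one_left' (v.const_le y)).trans_lt (hγ i)
    have h1 : s 0 * t 1 - s 1 * t 0 = (E.frame v).1.det * (a 0 * c 1 - a 1 * c 0) := by
      have h2 := gl_mulVec_inv (E.frame v) s
      have h3 := gl_mulVec_inv (E.frame v) t
      rw [← ha] at h2
      rw [← hc] at h3
      rw [← h2, ← h3, Matrix.det_fin_two]
      simp only [Matrix.mulVec, dotProduct, Fin.sum_univ_two]
      ring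
    have h4 : v.val (a 0 * c 1 - a 1 * c 0) = 1 := by
      have h5 : v.val ((a 0 * c 1 - a 1 * c 0) -
          algebraMap ℂ K (α 0 * γ 1 - α 1 * γ 0)) < 1 := by
        have h6 : (a 0 * c 1 - a 1 * c 0) - algebraMap ℂ K (α 0 * γ 1 - α 1 * γ 0) =
            ((a 0 - algebraMap ℂ K (α 0)) * c 1 + algebraMap ℂ K (α 0) * (c 1 - algebraMap ℂ K (γ 1)))
            - ((a 1 - algebraMap ℂ K (α 1)) * c 0 +
              algebraMap ℂ K (α 1) * (c 0 - algebraMap ℂ K (γ 0))) := by
          rw [map_sub, map_mul, map_mul]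
          ring
        rw [h6]
        refine Valuation.map_sub_lt _ (Valuation.map_add_lt _ ?_ ?_) (Valuation.map_add_lt _ ?_ ?_)
        · rw [map_mul]; exact (mul_le_of_le_one_right' (hc1 1)).trans_lt (hα 0)
        · rw [map_mul]; exact (mul_le_of_le_one_left' (v.const_le _)).trans_lt (hγ 1)
        · rw [map_mul]; exact (mul_le_of_le_one_right' (hc1 0)).trans_lt (hα 1)
        · rw [map_mul]; exact (mul_le_of_le_one_left' (v.const_le _)).trans_lt (hγ 0)
      have h7 := v.const _ hdet
      rw [← h7] at h5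
      rw [← h7]
      exact (Valuation.map_eq_of_sub_lt _ h5)
    rw [h1, map_mul, h4, mul_one]
  apply hE
  obtain ⟨v0⟩ := point_nonempty hK
  have hne : s 0 * t 1 - s 1 * t 0 ≠ 0 := by
    intro h
    have h1 := key v0
    rw [h, map_zero] at h1
    have h2 : (E.frame v0).1.det ≠ 0 := (E.det.frame v0).ne_zero
    exact v0.val_ne_zero h2 h1.symm
  have h3 : E.degree = (lprin hK (Units.mk0 _ hne)).degree := by
    unfold Bundle.degree LineBundle.degree
    apply finsum_congr
    intro v
    change -(-WithZero.log (v.val ((E.frame v).1.det))) = -(-WithZero.log (v.val (s 0 * t 1 - s 1 * t 0)))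
    rw [key v]
  rw [h3, lprin_degree]

/-- a stable bundle of rank two and degree two has at most one section -/
theorem sections_le_one (hK : IsCurve K) {E : Bundle K 2} (hd : E.degree = 2) (hs : IsStable E)
    (V : Submodule ℂ (Fin 2 → K)) (hV : V ≤ E.sections) : Module.finrank ℂ V ≠ 2 := by
  intro h2
  obtain ⟨w, hwV, hw0, v, hv⟩ := exists_vanishing hK (by rw [hd]; norm_num) hV h2
  obtain ⟨F, j, hF, h1⟩ := exists_line hK (hV hwV) hw0 hv
  have h3 := hs 1 F j one_pos one_lt_two hF
  rw [hd] at h3
  have h4 : (1 : ℚ) ≤ F.degree := by exact_mod_cast h1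
  norm_num at h3
  linarith

end Pool.Agent.X317
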